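import Pool.Agent.Lib.MP_fa837f_gt.TS.Iface

/-!
Project TS (MP_fa837f_gt), module LIM (helper95).
-/

set_option autoImplicit false

open MeasureTheory Set Filter Topology

namespace Pool.Agent.Lib.MP_fa837f_gt.TS.H95

open Pool.Agent.Lib.MP_fa837f_gt.TS

/-- The derivatives of concave functions which converge pointwise converge at the points of
differentiability of the limit. -/
theorem deriv_tendsto {F P : ℕ → ℝ → ℝ} {f : ℝ → ℝ} (hF : ∀ N, ConcaveOn ℝ Set.univ (F N))
    (hP : ∀ N ρ, HasDerivAt (F N) (P N ρ) ρ) (hlim : ∀ ρ, Tendsto (fun N => F N ρ) atTop (𝓝 (f ρ)))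
    {x d : ℝ} (hd : HasDerivAt f d x) : Tendsto (fun N => P N x) atTop (𝓝 d) := by
  have h1 := hasDerivAt_iff_tendsto_slope.1 hd
  rw [Metric.tendsto_atTop]
  intro ε hε
  -- a step to the right and one to the left
  have h2 : ∀ᶠ y in 𝓝[≠] x, |slope f x y - d| < ε / 2 := by
    have := Metric.tendsto_nhds.1 h1 (ε / 2) (by positivity)
    filter_upwards [this] with y hy
    rwa [Real.dist_eq] at hy
  obtain ⟨δ, hδ, h3⟩ := Metric.mem_nhdsWithin_iff.1 h2
  have h4 : ∀ y, y ≠ x → |y - x| < δ → |slope f x y - d| < ε / 2 := fun y hy hy' =>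
    h3 ⟨by rw [Metric.mem_ball, Real.dist_eq]; exact hy', hy⟩
  obtain ⟨h, hh⟩ : ∃ h : ℝ, h = δ / 2 := ⟨_, rfl⟩
  have hh0 : 0 < h := by rw [hh]; positivity
  have r1 := h4 (x + h) (by linarith) (by
    rw [add_sub_cancel_left, abs_of_pos hh0]
    linarith)
  have r2 := h4 (x - h) (by linarith) (by
    rw [show x - h - x = -h by ring, abs_neg, abs_of_pos hh0]
    linarith)
  have s1 : slope f x (x + h) = (f (x + h) - f x) / h := by
    rw [slope_def_field, add_sub_cancel_left]
  have s2 : slope f x (x - h) = (f x - f (x - h)) / h := by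
    rw [slope_def_field, show x - h - x = -h by ring, div_neg, ← neg_div, neg_sub]
  rw [s1] at r1
  rw [s2] at r2
  have t1 : Tendsto (fun N => (F N (x + h) - F N x) / h) atTop (𝓝 ((f (x + h) - f x) / h)) :=
    ((hlim _).sub (hlim _)).div_const h
  have t2 : Tendsto (fun N => (F N x - F N (x - h)) / h) atTop (𝓝 ((f x - f (x - h)) / h)) :=
    ((hlim _).sub (hlim _)).div_const h
  obtain ⟨N₁, hN₁⟩ := Metric.tendsto_atTop.1 t1 (ε / 2) (by positivity)
  obtain ⟨N₂, hN₂⟩ := Metric.tendsto_atTop.1 t2 (ε / 2) (by positivity)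
  refine ⟨max N₁ N₂, fun N hN => ?_⟩
  have u1 := hN₁ N ((le_max_left _ _).trans hN)
  have u2 := hN₂ N ((le_max_right _ _).trans hN)
  have v1 : (F N (x + h) - F N x) / h ≤ P N x := by
    have := (hF N).slope_le_of_hasDerivAt (mem_univ x) (mem_univ (x + h)) (by linarith)
      (hP N x)
    rwa [slope_def_field, add_sub_cancel_left] at this
  have v2 : P N x ≤ (F N x - F N (x - h)) / h := by
    have := (hF N).le_slope_of_hasDerivAt (mem_univ (x - h)) (mem_univ x) (by linarith)
      (hP N x)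
    rwa [slope_def_field, show x - (x - h) = h by ring] at this
  rw [Real.dist_eq] at u1 u2 ⊢
  rw [abs_lt] at *
  constructor <;> linarith [u1.1, u2.2, r1.1, r2.2]

theorem slo_ae {f : ℝ → ℝ} (hf : Slo f) : ∀ᵐ x : ℝ, DifferentiableAt ℝ f x :=
  (show Monotone f from fun x y h => hf.mono x y h).ae_differentiableAt

theorem lim (hExpi : ExpiStatement) : LimStatement := by
  intro f g hf hg hco e F P G Q he hlim hF hG hP hQ bP bQ aF aG
  have he0 : ∀ N, 0 < e N := fun N => (he N).1
  -- pointwise limits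
  have conv : ∀ {F : ℕ → ℝ → ℝ} {f : ℝ → ℝ},
      (∀ N ρ, |F N ρ - ((1 - e N) * f ρ + e N / 2 * ρ)| ≤ e N) →
      ∀ ρ, Tendsto (fun N => F N ρ) atTop (𝓝 (f ρ)) := by
    intro F f h ρ
    have h1 : Tendsto (fun N => (1 - e N) * f ρ + e N / 2 * ρ) atTop (𝓝 (f ρ)) := by
      have := ((hlim.const_sub 1).mul_const (f ρ)).add ((hlim.div_const 2).mul_const ρ)
      simpa using this
    have h2 : Tendsto (fun N => F N ρ - ((1 - e N) * f ρ + e N / 2 * ρ)) atTop (𝓝 0) :=
      squeeze_zero_norm (fun N => by rw [Real.norm_eq_abs]; exact h N ρ) hlim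
    have := h2.add h1
    simpa using this
  have cF := conv aF
  have cG := conv aG
  -- the exponent
  have hχ : ConcaveOn ℝ Set.univ (fun ρ => f ρ + g ρ - ρ) := by
    have h1 : ConcaveOn ℝ Set.univ (fun ρ : ℝ => -ρ) := (convexOn_id convex_univ).neg
    exact ((hf.conc.add hg.conc).add h1).congr (fun ρ _ => by
      simp only [Pi.add_apply]
      ring)
  have hχ2 : ConcaveOn ℝ Set.univ (fun ρ => (f ρ + g ρ - ρ) / 2) := by
    have := hχ.smul (c := (1 : ℝ) / 2) (by norm_num)
    exact this.congr (fun ρ _ => by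
      simp only [smul_eq_mul]
      ring)
  have hco2 : Coer (fun ρ => (f ρ + g ρ - ρ) / 2) :=
    ⟨hco.1.atBot_div_const (by norm_num), hco.2.atBot_div_const (by norm_num)⟩
  obtain ⟨i1, -⟩ := hExpi _ hχ hco
  obtain ⟨i2, -⟩ := hExpi _ hχ2 hco2
  refine tendsto_integral_of_dominated_convergence
    (fun ρ => Real.exp 1 * (Real.exp (f ρ + g ρ - ρ) + Real.exp ((f ρ + g ρ - ρ) / 2)))
    ?_ ((i1.add i2).const_mul _) ?_ ?_
  · intro N
    have m1 : Measurable (P N) := by
      have : P N = deriv (F N) := funext fun ρ => (hP N ρ).deriv.symm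
      rw [this]
      exact measurable_deriv _
    have m2 : Measurable (Q N) := by
      have : Q N = deriv (G N) := funext fun ρ => (hQ N ρ).deriv.symm
      rw [this]
      exact measurable_deriv _
    have c1 : Continuous (F N) := continuous_iff_continuousAt.2 fun ρ => (hP N ρ).continuousAt
    have c2 : Continuous (G N) := continuous_iff_continuousAt.2 fun ρ => (hQ N ρ).continuousAt
    exact ((Real.continuous_exp.comp ((c1.add c2).sub continuous_id)).measurable.mul
      (m1.mul m2)).aestronglyMeasurable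
  · intro N
    refine Eventually.of_forall fun ρ => ?_
    have b1 := bP N ρ
    have b2 := bQ N ρ
    have a1 := abs_le.1 (aF N ρ)
    have a2 := abs_le.1 (aG N ρ)
    have hpq : P N ρ * Q N ρ ≤ 1 := mul_le_one₀ b1.2 b2.1 b2.2
    have hpq0 : 0 ≤ P N ρ * Q N ρ := mul_nonneg b1.1 b2.1
    rw [Real.norm_eq_abs, abs_mul, abs_of_pos (Real.exp_pos _), abs_of_nonneg hpq0]
    obtain ⟨χ, hχd⟩ : ∃ χ : ℝ, χ = f ρ + g ρ - ρ := ⟨_, rfl⟩
    have h1 : F N ρ + G N ρ - ρ ≤ (1 - e N) * χ + 1 := by
      have := (he N).2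
      rw [hχd]
      nlinarith
    have h2 : (1 - e N) * χ ≤ max χ (χ / 2) := by
      rcases le_total 0 χ with h | h
      · refine le_trans ?_ (le_max_left _ _)
        nlinarith [he0 N]
      · refine le_trans ?_ (le_max_right _ _)
        nlinarith [(he N).2]
    rw [← hχd]
    calc Real.exp (F N ρ + G N ρ - ρ) * (P N ρ * Q N ρ) ≤ Real.exp (F N ρ + G N ρ - ρ) * 1 :=
          mul_le_mul_of_nonneg_left hpq (Real.exp_pos _).le
      _ ≤ Real.exp (1 + max χ (χ / 2)) := by
          rw [mul_one]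
          exact Real.exp_le_exp.2 (by linarith)
      _ = Real.exp 1 * max (Real.exp χ) (Real.exp (χ / 2)) := by
          rw [Real.exp_add, Real.exp_monotone.map_max]
      _ ≤ Real.exp 1 * (Real.exp χ + Real.exp (χ / 2)) := by
          refine mul_le_mul_of_nonneg_left ?_ (Real.exp_pos _).le
          exact max_le (le_add_of_nonneg_right (Real.exp_pos _).le)
            (le_add_of_nonneg_left (Real.exp_pos _).le)
  · filter_upwards [slo_ae hf, slo_ae hg] with ρ h1 h2
    have t1 := deriv_tendsto hF hP cF h1.hasDerivAt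
    have t2 := deriv_tendsto hG hQ cG h2.hasDerivAt
    have t3 : Tendsto (fun N => Real.exp (F N ρ + G N ρ - ρ)) atTop
        (𝓝 (Real.exp (f ρ + g ρ - ρ))) :=
      (Real.continuous_exp.tendsto _).comp (((cF ρ).add (cG ρ)).sub_const ρ)
    exact t3.mul (t1.mul t2)

end Pool.Agent.Lib.MP_fa837f_gt.TS.H95
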