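import Pool.Agent.Lib.MP_fa837f_gt.TS.Iface
import Pool.Agent.Lib.MP_2c1b2b_gt.H32.PL

/-!
Project TS (MP_fa837f_gt), module SEC1 (helper95): the section function.
-/

set_option autoImplicit false

open MeasureTheory Set Filter Topology
open scoped ENNReal

namespace Pool.Agent.Lib.MP_fa837f_gt.TS.H95

open Pool.Agent.Lib.MP_fa837f_gt.TS

/-- The section. -/
def Sx {k n : ℕ} (L : (ℝ × (Fin k → ℝ)) →ₗ[ℝ] (Fin n → ℝ)) (t : Fin n → ℝ) (z : ℝ) :
    Set (Fin k → ℝ) := {y | ∀ i, |L (z, y) i| ≤ Real.exp (t i)}

variable {k n : ℕ} (L : (ℝ × (Fin k → ℝ)) →ₗ[ℝ] (Fin n → ℝ)) (t : Fin n → ℝ)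

theorem isClosed_sx (z : ℝ) : IsClosed (Sx L t z) := by
  have hL : Continuous L := L.continuous_of_finiteDimensional
  have h : Sx L t z = ⋂ i, {y : Fin k → ℝ | |L (z, y) i| ≤ Real.exp (t i)} := by
    ext y
    simp [Sx]
  rw [h]
  refine isClosed_iInter fun i => isClosed_le ?_ continuous_const
  exact ((continuous_apply i).comp (hL.comp (continuous_const.prodMk continuous_id))).abs

/-- All points of the body are in a ball. -/
theorem exists_bound (hL : Function.Injective L) : ∃ R : ℝ, ∀ (z : ℝ) (y : Fin k → ℝ),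
    y ∈ Sx L t z → |z| ≤ R ∧ ‖y‖ ≤ R := by
  obtain ⟨K, hK, hA⟩ := L.exists_antilipschitzWith (LinearMap.ker_eq_bot.2 hL)
  refine ⟨K * ∑ i, Real.exp (t i), fun z y hy => ?_⟩
  have h1 := hA.le_mul_dist (z, y) 0
  rw [map_zero, dist_zero_right, dist_zero_right] at h1
  have h2 : ‖L (z, y)‖ ≤ ∑ i, Real.exp (t i) := by
    refine (pi_norm_le_iff_of_nonneg (Finset.sum_nonneg fun i _ => (Real.exp_pos _).le)).2
      fun i => ?_
    rw [Real.norm_eq_abs]
    exact (hy i).trans (Finset.single_le_sum (f := fun i => Real.exp (t i))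
      (fun i _ => (Real.exp_pos _).le) (Finset.mem_univ i))
  have h3 : ‖(z, y)‖ ≤ K * ∑ i, Real.exp (t i) :=
    h1.trans (mul_le_mul_of_nonneg_left h2 K.2)
  exact ⟨(norm_fst_le (z, y)).trans h3, (norm_snd_le (z, y)).trans h3⟩

theorem sx_neg (z : ℝ) : Sx L t (-z) = Neg.neg ⁻¹' Sx L t z := by
  ext y
  simp only [Sx, mem_ofPred_eq, mem_preimage]
  have h : L (-z, y) = -L (z, -y) := by
    rw [← map_neg]
    simp
  rw [h]
  simp

theorem vol_neg (z : ℝ) : volume (Sx L t (-z)) = volume (Sx L t z) := by
  rw [sx_neg, Measure.measure_preimage_neg]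

/-- The sections shrink. -/
theorem vol_anti {z z' : ℝ} (hz : 0 ≤ z) (hzz : z ≤ z') :
    volume (Sx L t z') ≤ volume (Sx L t z) := by
  rcases hzz.eq_or_lt with rfl | hlt
  · exact le_rfl
  have hz' : 0 < z' := hz.trans_lt hlt
  obtain ⟨τ, hτ⟩ : ∃ τ : ℝ, τ = (1 - z / z') / 2 := ⟨_, rfl⟩
  have hr : z / z' < 1 := (div_lt_one hz').2 hlt
  have hr0 : 0 ≤ z / z' := div_nonneg hz hz'.le
  have h0 : 0 < τ := by rw [hτ]; linarith
  have h1 : τ < 1 := by rw [hτ]; linarith
  have hcomb : (1 - τ) * z' + τ * -z' = z := by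
    rw [hτ]
    field_simp
    ring
  have key := Pool.Agent.Lib.MP_2c1b2b_gt.H32.pl_fin k τ h0 h1
    ((Sx L t z').indicator 1) ((Sx L t (-z')).indicator 1) ((Sx L t z).indicator 1)
    (measurable_one.indicator (isClosed_sx L t z').measurableSet)
    (measurable_one.indicator (isClosed_sx L t (-z')).measurableSet)
    (measurable_one.indicator (isClosed_sx L t z).measurableSet) (by
      intro x y
      by_cases hx : x ∈ Sx L t z'
      · by_cases hy : y ∈ Sx L t (-z')
        · have hm : (1 - τ) • x + τ • y ∈ Sx L t z := by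
            intro i
            have e : L (z, (1 - τ) • x + τ • y) = (1 - τ) • L (z', x) + τ • L (-z', y) := by
              rw [← map_smul, ← map_smul, ← map_add]
              congr 1
              ext
              · simp only [Prod.fst_add, Prod.smul_fst, smul_eq_mul]
                exact hcomb.symm
              · simp
            rw [e]
            have a1 := hx i
            have a2 := hy i
            rw [abs_le] at a1 a2 ⊢
            simp only [Pi.add_apply, Pi.smul_apply, smul_eq_mul]
            constructor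
            · nlinarith
            · nlinarith
          rw [indicator_of_mem hx, indicator_of_mem hy, indicator_of_mem hm]
          simp
        · rw [indicator_of_notMem hy, ENNReal.zero_rpow_of_pos h0, mul_zero]
          exact zero_le
      · rw [indicator_of_notMem hx, ENNReal.zero_rpow_of_pos (by linarith), zero_mul]
        exact zero_le)
  rw [lintegral_indicator_one (isClosed_sx L t z').measurableSet,
    lintegral_indicator_one (isClosed_sx L t (-z')).measurableSet,
    lintegral_indicator_one (isClosed_sx L t z).measurableSet, vol_neg,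
    ← ENNReal.rpow_add_of_nonneg _ _ (by linarith) h0.le, sub_add_cancel, ENNReal.rpow_one] at key
  exact key

theorem sec1 : Sec1Statement := by
  intro k n L hL t
  obtain ⟨R, hR⟩ := exists_bound L t hL
  have hfin : ∀ z, volume (Sx L t z) ≠ ⊤ := fun z =>
    ((measure_mono (fun y hy => by
      rw [mem_closedBall_zero_iff]
      exact (hR z y hy).2)).trans_lt (measure_closedBall_lt_top (x := (0 : Fin k → ℝ))
        (r := R))).ne
  refine ⟨hfin, fun z => ?_, fun z hz z' _ hzz => ?_, ⟨R + 1, fun z hz => ?_⟩, ?_⟩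
  · exact congrArg ENNReal.toReal (vol_neg L t z)
  · exact ENNReal.toReal_mono (hfin z) (vol_anti L t hz hzz)
  · have h : Sx L t z = ∅ := by
      rw [eq_empty_iff_forall_notMem]
      intro y hy
      have := (hR z y hy).1
      have h2 := le_abs_self z
      linarith
    show (volume (Sx L t z)).toReal = 0
    rw [h, measure_empty]
    rfl
  · have hLc : Continuous L := L.continuous_of_finiteDimensional
    have hU : IsOpen {x : ℝ × (Fin k → ℝ) | ∀ i, |L x i| < Real.exp (t i)} := by
      have h : {x : ℝ × (Fin k → ℝ) | ∀ i, |L x i| < Real.exp (t i)} =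
          ⋂ i, {x | |L x i| < Real.exp (t i)} := by
        ext x
        simp
      rw [h]
      refine isOpen_iInter_of_finite fun i => isOpen_lt ?_ continuous_const
      exact ((continuous_apply i).comp hLc).abs
    obtain ⟨ε, hε, hb⟩ := Metric.isOpen_iff.1 hU 0 (fun i => by simp [Real.exp_pos])
    refine ⟨ε / 2, by positivity, ?_⟩
    have hsub : Metric.ball (0 : Fin k → ℝ) ε ⊆ Sx L t (ε / 2) := by
      intro y hy i
      have h1 : ((ε / 2, y) : ℝ × (Fin k → ℝ)) ∈ Metric.ball (0 : ℝ × (Fin k → ℝ)) ε := by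
        rw [mem_ball_zero_iff, Prod.norm_def, max_lt_iff]
        refine ⟨?_, mem_ball_zero_iff.1 hy⟩
        rw [Real.norm_eq_abs, abs_of_pos (by positivity)]
        linarith
      exact (hb h1 i).le
    refine ENNReal.toReal_pos ?_ (hfin _)
    exact ((Metric.measure_ball_pos volume (0 : Fin k → ℝ) hε).trans_le (measure_mono hsub)).ne'

end Pool.Agent.Lib.MP_fa837f_gt.TS.H95
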