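import Pool.Agent.Lib.MP_fa837f_gt.TS.Iface

/-!
Project TS (MP_fa837f_gt), module SM0 (helper95).
-/

set_option autoImplicit false

open MeasureTheory Set Filter Topology

namespace Pool.Agent.Lib.MP_fa837f_gt.TS.H95

open Pool.Agent.Lib.MP_fa837f_gt.TS

theorem sm0 (hExpi : ExpiStatement) (hDiff : DiffStatement) (hKid : KidStatement)
    (hSign : SignStatement) : Sm0Statement := by
  intro J₁ J₂ e he hp₁ hp₂ hco θ h0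
  have hp₁' : ∀ θ ρ, 0 ≤ J₁.p θ ρ ∧ J₁.p θ ρ ≤ 1 := fun θ ρ =>
    ⟨he.le.trans (hp₁ θ ρ).1, (hp₁ θ ρ).2⟩
  have hp₂' : ∀ θ ρ, 0 ≤ J₂.p θ ρ ∧ J₂.p θ ρ ≤ 1 := fun θ ρ =>
    ⟨he.le.trans (hp₂ θ ρ).1, (hp₂ θ ρ).2⟩
  obtain ⟨-, hF1i, hF2i, -, -⟩ := hDiff J₁ J₂ hp₁' hp₂' hco θ
  obtain ⟨K₁, hK₁⟩ := J₁.bdd
  obtain ⟨K₂, hK₂⟩ := J₂.bdd
  -- slices
  have sl : ∀ {g : ℝ → ℝ → ℝ}, (Continuous fun z : ℝ × ℝ => g z.1 z.2) →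
      Continuous fun ρ => g θ ρ := fun hg => hg.comp (continuous_const.prodMk continuous_id)
  have cf1 := sl J₁.cf
  have cf2 := sl J₂.cf
  have cp1 := sl J₁.cp
  have cp2 := sl J₂.cp
  have ca1 := sl J₁.ca
  have ca2 := sl J₂.ca
  have cm1 := sl J₁.cm
  have cm2 := sl J₂.cm
  have ck1 := sl J₁.ck
  have ck2 := sl J₂.ck
  have cc1 := sl J₁.cc
  have cc2 := sl J₂.cc
  have cE : Continuous fun ρ => EE J₁ J₂ θ ρ :=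
    Real.continuous_exp.comp ((cf1.add cf2).sub continuous_id)
  have hEpos : ∀ ρ, 0 < EE J₁ J₂ θ ρ := fun ρ => Real.exp_pos _
  have cF1 : Continuous (F1 J₁ J₂ θ) :=
    cE.mul ((((cp1.mul cp2).mul (ca1.add ca2)).add (cm1.mul cp2)).add (cp1.mul cm2))
  have cF2 : Continuous (F2 J₁ J₂ θ) := by
    refine cE.mul (((((((cp1.mul cp2).mul ((ca1.add ca2).pow 2)).add
      ((continuous_const.mul (ca1.add ca2)).mul ((cm1.mul cp2).add (cp1.mul cm2)))).add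
      ((cp1.mul cp2).mul (ck1.add ck2))).add (cc1.mul cp2)).add
      (continuous_const.mul (cm1.mul cm2))).add (cp1.mul cc2))
  -- the exponent
  have hχ' : ∀ ρ, HasDerivAt (fun ρ => J₁.f θ ρ + J₂.f θ ρ - ρ) (J₁.p θ ρ + J₂.p θ ρ - 1) ρ :=
    fun ρ => ((J₁.hfp θ ρ).add (J₂.hfp θ ρ)).sub (hasDerivAt_id ρ)
  have hχ'' : ∀ ρ, HasDerivAt (fun ρ => J₁.p θ ρ + J₂.p θ ρ - 1)
      (-(J₁.P θ ρ) + -(J₂.P θ ρ)) ρ :=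
    fun ρ => ((J₁.hpP θ ρ).add (J₂.hpP θ ρ)).sub_const 1
  have hχc : ConcaveOn ℝ Set.univ (fun ρ => J₁.f θ ρ + J₂.f θ ρ - ρ) := by
    have hd : deriv (fun ρ => J₁.f θ ρ + J₂.f θ ρ - ρ) = fun ρ => J₁.p θ ρ + J₂.p θ ρ - 1 :=
      funext fun ρ => (hχ' ρ).deriv
    refine Antitone.concaveOn_univ_of_deriv (fun ρ => (hχ' ρ).differentiableAt) ?_
    rw [hd]
    refine antitone_of_deriv_nonpos (fun ρ => (hχ'' ρ).differentiableAt) fun ρ => ?_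
    rw [(hχ'' ρ).deriv]
    have := J₁.hP θ ρ
    have := J₂.hP θ ρ
    linarith
  obtain ⟨hEi, hEb, hEt, K, hK⟩ := hExpi _ hχc (hco θ)
  change Integrable (fun ρ => EE J₁ J₂ θ ρ) at hEi
  change Tendsto (fun ρ => EE J₁ J₂ θ ρ) atBot (𝓝 0) at hEb
  change Tendsto (fun ρ => EE J₁ J₂ θ ρ) atTop (𝓝 0) at hEt
  change ∀ ρ, (∫ x in Iic ρ, EE J₁ J₂ θ x ≤ K * EE J₁ J₂ θ ρ) ∨
      (∫ x in Ioi ρ, EE J₁ J₂ θ x ≤ K * EE J₁ J₂ θ ρ) at hK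
  -- bounds
  obtain ⟨B, hB0, hB1, hB2⟩ : ∃ B : ℝ, 0 ≤ B ∧ K₁ ≤ B ∧ K₂ ≤ B :=
    ⟨max 0 (max K₁ K₂), le_max_left _ _, (le_max_left _ _).trans (le_max_right _ _),
      (le_max_right _ _).trans (le_max_right _ _)⟩
  have bd1 : ∀ ρ, |J₁.a θ ρ| ≤ B ∧ |J₁.P θ ρ| ≤ B ∧ |J₁.m θ ρ| ≤ B ∧ |J₁.k θ ρ| ≤ B := fun ρ =>
    ⟨(hK₁ θ ρ).1.trans hB1, (hK₁ θ ρ).2.1.trans hB1, (hK₁ θ ρ).2.2.1.trans hB1,
      (hK₁ θ ρ).2.2.2.1.trans hB1⟩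
  have bd2 : ∀ ρ, |J₂.a θ ρ| ≤ B ∧ |J₂.P θ ρ| ≤ B ∧ |J₂.m θ ρ| ≤ B ∧ |J₂.k θ ρ| ≤ B := fun ρ =>
    ⟨(hK₂ θ ρ).1.trans hB2, (hK₂ θ ρ).2.1.trans hB2, (hK₂ θ ρ).2.2.1.trans hB2,
      (hK₂ θ ρ).2.2.2.1.trans hB2⟩
  have hF1b : ∀ ρ, |F1 J₁ J₂ θ ρ| ≤ 4 * B * EE J₁ J₂ θ ρ := by
    intro ρ
    unfold F1
    rw [abs_mul, abs_of_pos (hEpos ρ), mul_comm]
    refine mul_le_mul_of_nonneg_right ?_ (hEpos ρ).le
    obtain ⟨a1, -, m1, -⟩ := bd1 ρ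
    obtain ⟨a2, -, m2, -⟩ := bd2 ρ
    have p1 := hp₁' θ ρ
    have p2 := hp₂' θ ρ
    rw [abs_le] at a1 a2 m1 m2 ⊢
    have q1 : |J₁.p θ ρ * J₂.p θ ρ * (J₁.a θ ρ + J₂.a θ ρ)| ≤ 2 * B := by
      rw [abs_mul, abs_of_nonneg (mul_nonneg p1.1 p2.1)]
      have h1 : J₁.p θ ρ * J₂.p θ ρ ≤ 1 := mul_le_one₀ p1.2 p2.1 p2.2
      have h2 : |J₁.a θ ρ + J₂.a θ ρ| ≤ 2 * B := abs_le.2 ⟨by linarith, by linarith⟩
      calc J₁.p θ ρ * J₂.p θ ρ * |J₁.a θ ρ + J₂.a θ ρ| ≤ 1 * (2 * B) :=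
            mul_le_mul h1 h2 (abs_nonneg _) zero_le_one
        _ = 2 * B := one_mul _
    have q2 : |J₁.m θ ρ * J₂.p θ ρ| ≤ B := by
      rw [abs_mul, abs_of_nonneg p2.1]
      calc |J₁.m θ ρ| * J₂.p θ ρ ≤ B * 1 := mul_le_mul (abs_le.2 m1) p2.2 p2.1 hB0
        _ = B := mul_one _
    have q3 : |J₁.p θ ρ * J₂.m θ ρ| ≤ B := by
      rw [abs_mul, abs_of_nonneg p1.1]
      calc J₁.p θ ρ * |J₂.m θ ρ| ≤ 1 * B := mul_le_mul p1.2 (abs_le.2 m2) (abs_nonneg _) zero_le_one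
        _ = B := one_mul _
    rw [abs_le] at q1 q2 q3
    constructor <;> linarith
  -- `Xi`
  obtain ⟨Xi, hXi⟩ : ∃ Xi : ℝ → ℝ, Xi = fun ρ => -((∫ x in Iic (0 : ℝ), F1 J₁ J₂ θ x) +
    ∫ x in (0 : ℝ)..ρ, F1 J₁ J₂ θ x) := ⟨_, rfl⟩
  have hXid : ∀ ρ, HasDerivAt Xi (-(F1 J₁ J₂ θ ρ)) ρ := by
    intro ρ
    rw [hXi]
    exact ((intervalIntegral.integral_hasDerivAt_right (cF1.intervalIntegrable _ _)
      (cF1.stronglyMeasurableAtFilter _ _) cF1.continuousAt).const_add _).neg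
  have hXi1 : ∀ ρ, Xi ρ = -∫ x in Iic ρ, F1 J₁ J₂ θ x := by
    intro ρ
    rw [hXi]
    simp only
    rw [← intervalIntegral.integral_Iic_sub_Iic hF1i.integrableOn hF1i.integrableOn]
    ring
  have hXi2 : ∀ ρ, Xi ρ = ∫ x in Ioi ρ, F1 J₁ J₂ θ x := by
    intro ρ
    have h1 := integral_add_compl (measurableSet_Iic (a := ρ)) hF1i
    rw [h0, compl_Iic] at h1
    rw [hXi1]
    linarith
  have hXib : ∀ ρ, |Xi ρ| ≤ 4 * B * K * EE J₁ J₂ θ ρ := by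
    intro ρ
    have key : ∀ s : Set ℝ, MeasurableSet s → ∫ x in s, EE J₁ J₂ θ x ≤ K * EE J₁ J₂ θ ρ →
        |∫ x in s, F1 J₁ J₂ θ x| ≤ 4 * B * K * EE J₁ J₂ θ ρ := by
      intro s hs h
      calc |∫ x in s, F1 J₁ J₂ θ x| ≤ ∫ x in s, |F1 J₁ J₂ θ x| := abs_integral_le_integral_abs
        _ ≤ ∫ x in s, 4 * B * EE J₁ J₂ θ x :=
            setIntegral_mono hF1i.abs.integrableOn (hEi.const_mul _).integrableOn hF1b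
        _ = 4 * B * ∫ x in s, EE J₁ J₂ θ x := by rw [integral_const_mul]
        _ ≤ 4 * B * (K * EE J₁ J₂ θ ρ) := mul_le_mul_of_nonneg_left h (by positivity)
        _ = _ := by ring
    rcases hK ρ with h | h
    · rw [hXi1, abs_neg]
      exact key _ measurableSet_Iic h
    · rw [hXi2]
      exact key _ measurableSet_Ioi h
  -- `xi`
  obtain ⟨xi, hxi⟩ : ∃ xi : ℝ → ℝ, xi = fun ρ => Xi ρ / (EE J₁ J₂ θ ρ *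
    (J₁.p θ ρ * J₂.p θ ρ)) := ⟨_, rfl⟩
  have hE' : ∀ ρ, HasDerivAt (fun ρ => EE J₁ J₂ θ ρ)
      (EE J₁ J₂ θ ρ * (J₁.p θ ρ + J₂.p θ ρ - 1)) ρ := fun ρ => (hχ' ρ).exp
  have hp1 : ∀ ρ, J₁.p θ ρ ≠ 0 := fun ρ => (he.trans_le (hp₁ θ ρ).1).ne'
  have hp2 : ∀ ρ, J₂.p θ ρ ≠ 0 := fun ρ => (he.trans_le (hp₂ θ ρ).1).ne'
  have hxid : ∀ ρ, HasDerivAt xi ((1 - J₁.p θ ρ - J₂.p θ ρ) * xi ρ - J₁.a θ ρ - J₂.a θ ρ -
      (J₁.m θ ρ - J₁.P θ ρ * xi ρ) / J₁.p θ ρ - (J₂.m θ ρ - J₂.P θ ρ * xi ρ) / J₂.p θ ρ) ρ := by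
    intro ρ
    have h1 := (hE' ρ).mul ((J₁.hpP θ ρ).mul (J₂.hpP θ ρ))
    have hne : EE J₁ J₂ θ ρ * (J₁.p θ ρ * J₂.p θ ρ) ≠ 0 :=
      mul_ne_zero (hEpos ρ).ne' (mul_ne_zero (hp1 ρ) (hp2 ρ))
    have h2 := (hXid ρ).div h1 hne
    rw [hxi]
    refine h2.congr_deriv ?_
    have e1 := hp1 ρ
    have e2 := hp2 ρ
    have e3 := (hEpos ρ).ne'
    unfold F1
    simp only [Pi.mul_apply]
    field_simp
    ring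
  obtain ⟨Y, hY⟩ : ∃ Y : ℝ, Y = 4 * B * K / e ^ 2 := ⟨_, rfl⟩
  have hxib : ∀ ρ, |xi ρ| ≤ Y := by
    intro ρ
    have hE := hEpos ρ
    have q1 := (hp₁ θ ρ).1
    have q2 := (hp₂ θ ρ).1
    have h1 : e ^ 2 ≤ J₁.p θ ρ * J₂.p θ ρ := by
      rw [sq]
      exact mul_le_mul q1 q2 he.le (he.le.trans q1)
    have h2 := hXib ρ
    have h3 : 0 ≤ 4 * B * K * EE J₁ J₂ θ ρ := (abs_nonneg _).trans h2
    have h4 : 0 < EE J₁ J₂ θ ρ * (J₁.p θ ρ * J₂.p θ ρ) :=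
      mul_pos hE (lt_of_lt_of_le (by positivity) h1)
    rw [hxi, hY, abs_div, abs_of_pos h4, div_le_div_iff₀ h4 (by positivity)]
    calc |Xi ρ| * e ^ 2 ≤ 4 * B * K * EE J₁ J₂ θ ρ * (J₁.p θ ρ * J₂.p θ ρ) :=
          mul_le_mul h2 h1 (by positivity) h3
      _ = _ := by ring
  have hY0 : 0 ≤ Y := (abs_nonneg _).trans (hxib 0)
  -- the function of KID
  obtain ⟨Kf, hKf⟩ : ∃ Kf : ℝ → ℝ, Kf = fun y => EE J₁ J₂ θ y *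
    (J₂.p θ y * J₁.k θ y + J₁.p θ y * J₂.k θ y -
      J₁.p θ y * J₂.p θ y * (J₁.p θ y + J₂.p θ y - 1) * xi y ^ 2 -
        2 * (J₁.p θ y * J₂.p θ y) * xi y * (J₁.a θ y + J₂.a θ y)) := ⟨_, rfl⟩
  have hKd : ∀ ρ, ∃ r : ℝ, 0 ≤ r ∧ HasDerivAt Kf (F2 J₁ J₂ θ ρ + r) ρ := by
    intro ρ
    have h1 := hKid (fun ρ => EE J₁ J₂ θ ρ) (fun ρ => J₁.p θ ρ) (fun ρ => J₂.p θ ρ)
      (fun ρ => J₁.a θ ρ) (fun ρ => J₂.a θ ρ) (fun ρ => J₁.P θ ρ) (fun ρ => J₂.P θ ρ)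
      (fun ρ => J₁.m θ ρ) (fun ρ => J₂.m θ ρ) (fun ρ => J₁.k θ ρ) (fun ρ => J₂.k θ ρ)
      (fun ρ => J₁.c θ ρ) (fun ρ => J₂.c θ ρ) xi ρ (hE' ρ) (J₁.hpP θ ρ) (J₂.hpP θ ρ)
      (J₁.ham θ ρ) (J₂.ham θ ρ) (J₁.hkc θ ρ) (J₂.hkc θ ρ) (hp1 ρ) (hp2 ρ) (hxid ρ)
    have h2 := hSign (J₁.p θ ρ) (J₂.p θ ρ) (J₁.a θ ρ) (J₂.a θ ρ) (J₁.P θ ρ) (J₂.P θ ρ)
      (J₁.m θ ρ) (J₂.m θ ρ) (J₁.k θ ρ) (J₂.k θ ρ) (xi ρ) (hp₁' θ ρ).1 (hp₁' θ ρ).2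
      (hp₂' θ ρ).1 (hp₂' θ ρ).2 (J₁.hP θ ρ) (J₂.hP θ ρ) (J₁.hk θ ρ) (J₂.hk θ ρ)
      (J₁.hm θ ρ) (J₂.hm θ ρ)
    refine ⟨_, mul_nonneg (hEpos ρ).le h2, ?_⟩
    rw [hKf]
    exact h1
  have hKb : ∀ ρ, |Kf ρ| ≤ (2 * B + Y ^ 2 + 4 * B * Y) * EE J₁ J₂ θ ρ := by
    intro ρ
    rw [hKf]
    simp only
    rw [abs_mul, abs_of_pos (hEpos ρ), mul_comm]
    refine mul_le_mul_of_nonneg_right ?_ (hEpos ρ).le
    obtain ⟨a1, -, -, k1⟩ := bd1 ρ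
    obtain ⟨a2, -, -, k2⟩ := bd2 ρ
    have p1 := hp₁' θ ρ
    have p2 := hp₂' θ ρ
    have x1 := hxib ρ
    have q1 : |J₂.p θ ρ * J₁.k θ ρ| ≤ B := by
      rw [abs_mul, abs_of_nonneg p2.1]
      calc J₂.p θ ρ * |J₁.k θ ρ| ≤ 1 * B := mul_le_mul p2.2 k1 (abs_nonneg _) zero_le_one
        _ = B := one_mul _
    have q2 : |J₁.p θ ρ * J₂.k θ ρ| ≤ B := by
      rw [abs_mul, abs_of_nonneg p1.1]
      calc J₁.p θ ρ * |J₂.k θ ρ| ≤ 1 * B := mul_le_mul p1.2 k2 (abs_nonneg _) zero_le_one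
        _ = B := one_mul _
    have hpq : J₁.p θ ρ * J₂.p θ ρ ≤ 1 := mul_le_one₀ p1.2 p2.1 p2.2
    have hpq0 : 0 ≤ J₁.p θ ρ * J₂.p θ ρ := mul_nonneg p1.1 p2.1
    have q3 : |J₁.p θ ρ * J₂.p θ ρ * (J₁.p θ ρ + J₂.p θ ρ - 1) * xi ρ ^ 2| ≤ Y ^ 2 := by
      rw [abs_mul, abs_mul, abs_of_nonneg hpq0, abs_pow]
      have h1 : |J₁.p θ ρ + J₂.p θ ρ - 1| ≤ 1 := abs_le.2 ⟨by linarith, by linarith⟩
      have h2 : J₁.p θ ρ * J₂.p θ ρ * |J₁.p θ ρ + J₂.p θ ρ - 1| ≤ 1 * 1 :=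
        mul_le_mul hpq h1 (abs_nonneg _) zero_le_one
      calc J₁.p θ ρ * J₂.p θ ρ * |J₁.p θ ρ + J₂.p θ ρ - 1| * |xi ρ| ^ 2 ≤ (1 * 1) * Y ^ 2 :=
            mul_le_mul h2 (pow_le_pow_left₀ (abs_nonneg _) x1 2) (by positivity) (by norm_num)
        _ = Y ^ 2 := by ring
    have q4 : |2 * (J₁.p θ ρ * J₂.p θ ρ) * xi ρ * (J₁.a θ ρ + J₂.a θ ρ)| ≤ 4 * B * Y := by
      rw [abs_mul, abs_mul, abs_of_nonneg (mul_nonneg zero_le_two hpq0)]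
      have h1 : |J₁.a θ ρ + J₂.a θ ρ| ≤ 2 * B := by
        rw [abs_le] at a1 a2 ⊢
        constructor <;> linarith
      have h2 : 2 * (J₁.p θ ρ * J₂.p θ ρ) * |xi ρ| ≤ 2 * 1 * Y :=
        mul_le_mul (mul_le_mul_of_nonneg_left hpq zero_le_two) x1 (abs_nonneg _) (by norm_num)
      calc 2 * (J₁.p θ ρ * J₂.p θ ρ) * |xi ρ| * |J₁.a θ ρ + J₂.a θ ρ| ≤
            (2 * 1 * Y) * (2 * B) := mul_le_mul h2 h1 (abs_nonneg _) (by positivity)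
        _ = 4 * B * Y := by ring
    rw [abs_le] at q1 q2 q3 q4 ⊢
    constructor <;> linarith
  have hK0 : ∀ l : Filter ℝ, Tendsto (fun ρ => EE J₁ J₂ θ ρ) l (𝓝 0) →
      Tendsto Kf l (𝓝 0) := by
    intro l hl
    have h1 : Tendsto (fun ρ => (2 * B + Y ^ 2 + 4 * B * Y) * EE J₁ J₂ θ ρ) l (𝓝 0) := by
      have := hl.const_mul (2 * B + Y ^ 2 + 4 * B * Y)
      rwa [mul_zero] at this
    exact squeeze_zero_norm (fun ρ => by rw [Real.norm_eq_abs]; exact hKb ρ) h1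
  choose r hr0 hr using hKd
  -- monotonicity
  have hG : Monotone fun ρ => Kf ρ - ∫ x in (0 : ℝ)..ρ, F2 J₁ J₂ θ x := by
    have hd : ∀ ρ, HasDerivAt (fun ρ => Kf ρ - ∫ x in (0 : ℝ)..ρ, F2 J₁ J₂ θ x) (r ρ) ρ := by
      intro ρ
      have h1 := (hr ρ).sub (intervalIntegral.integral_hasDerivAt_right
        (cF2.intervalIntegrable 0 ρ) (cF2.stronglyMeasurableAtFilter _ _) cF2.continuousAt)
      refine h1.congr_deriv ?_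
      ring
    refine monotone_of_deriv_nonneg (fun ρ => (hd ρ).differentiableAt) fun ρ => ?_
    rw [(hd ρ).deriv]
    exact hr0 ρ
  have hint : ∀ R : ℝ, 0 ≤ R → ∫ x in (-R)..R, F2 J₁ J₂ θ x ≤ Kf R - Kf (-R) := by
    intro R hR
    have h1 := hG (show -R ≤ R by linarith)
    simp only at h1
    have h2 := intervalIntegral.integral_add_adjacent_intervals
      (cF2.intervalIntegrable (μ := volume) (-R) 0) (cF2.intervalIntegrable (μ := volume) 0 R)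
    have h3 := intervalIntegral.integral_symm (μ := volume) (f := F2 J₁ J₂ θ) 0 (-R)
    linarith
  have t1 : Tendsto (fun R : ℝ => ∫ x in (-R)..R, F2 J₁ J₂ θ x) atTop
      (𝓝 (∫ x, F2 J₁ J₂ θ x)) :=
    intervalIntegral_tendsto_integral hF2i tendsto_neg_atTop_atBot tendsto_id
  have t2 : Tendsto (fun R : ℝ => Kf R - Kf (-R)) atTop (𝓝 0) := by
    have := (hK0 _ hEt).sub ((hK0 _ hEb).comp tendsto_neg_atTop_atBot)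
    rw [sub_zero] at this
    exact this
  exact le_of_tendsto_of_tendsto t1 t2 (by
    filter_upwards [eventually_ge_atTop (0 : ℝ)] with R hR
    exact hint R hR)

end Pool.Agent.Lib.MP_fa837f_gt.TS.H95
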